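import Pool.Agent.H86.KZ.S

set_option autoImplicit false

namespace Pool.KZ

theorem t_eig : EIGStmt := by
  intro K V V' _ _ _ _ _ _ Z B Z' B' α β hfin hBZ hαZ hβZ hαB hβB hB'Z' hsur hinj hpen
  let A : Z →ₗ[K] Z' := (α.domRestrict Z).codRestrict Z' (fun z => hαZ z z.2)
  let C : Z →ₗ[K] Z' := (β.domRestrict Z).codRestrict Z' (fun z => hβZ z z.2)
  let P : Submodule K Z := B.comap Z.subtype
  let P' : Submodule K Z' := B'.comap Z'.subtype
  have hA : P ≤ P'.comap A := fun z hz => hαB z hz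
  have hC : P ≤ P'.comap C := fun z hz => hβB z hz
  let Aq : (Z ⧸ P) →ₗ[K] (Z' ⧸ P') := P.mapQ P' A hA
  let Cq : (Z ⧸ P) →ₗ[K] (Z' ⧸ P') := P.mapQ P' C hC
  have hAi : Function.Injective Aq := by
    rw [injective_iff_map_eq_zero]
    intro y hy
    obtain ⟨z, rfl⟩ := P.mkQ_surjective y
    rw [Submodule.mkQ_apply, Submodule.mapQ_apply, Submodule.Quotient.mk_eq_zero] at hy
    rw [Submodule.mkQ_apply, Submodule.Quotient.mk_eq_zero]
    exact hinj z z.2 hy
  have hAs : Function.Surjective Aq := by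
    intro y
    obtain ⟨z', rfl⟩ := P'.mkQ_surjective y
    obtain ⟨z, hz, h⟩ := hsur z' z'.2
    refine ⟨P.mkQ ⟨z, hz⟩, ?_⟩
    rw [Submodule.mkQ_apply, Submodule.mapQ_apply, Submodule.mkQ_apply, eq_comm,
      Submodule.Quotient.eq]
    exact h
  let e : (Z ⧸ P) ≃ₗ[K] (Z' ⧸ P') := LinearEquiv.ofBijective Aq ⟨hAi, hAs⟩
  let φ : Module.End K (Z ⧸ P) := e.symm.toLinearMap.comp Cq
  intro z hz
  by_contra hzB
  have hne : (P.mkQ ⟨z, hz⟩ : Z ⧸ P) ≠ 0 := by
    rw [Submodule.mkQ_apply, Ne, Submodule.Quotient.mk_eq_zero]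
    exact hzB
  have hnt : Nontrivial (Z ⧸ P) := ⟨_, _, hne⟩
  have hfin' : Module.Finite K (Z ⧸ P) := inferInstance
  obtain ⟨t, ht⟩ := Module.End.exists_eigenvalue φ
  obtain ⟨y, hy⟩ := ht.exists_hasEigenvector
  have hy1 : φ y = t • y := hy.apply_eq_smul
  have hy0 : y ≠ 0 := hy.2
  have hy2 : Cq y = t • Aq y := by
    have h := congrArg e hy1
    simp only [φ, LinearMap.comp_apply, LinearEquiv.coe_coe, LinearEquiv.apply_symm_apply,
      map_smul] at h
    exact h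
  obtain ⟨w, rfl⟩ := P.mkQ_surjective y
  apply hy0
  rw [Submodule.mkQ_apply, Submodule.Quotient.mk_eq_zero]
  refine hpen t w w.2 ?_
  rw [Submodule.mkQ_apply, Submodule.mapQ_apply, Submodule.mapQ_apply,
    ← Submodule.Quotient.mk_smul, Submodule.Quotient.eq] at hy2
  exact hy2

end Pool.KZ
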