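import Pool.Agent.H86.KZ.S

set_option autoImplicit false

namespace Pool.KZ

open MvPolynomial

namespace FIE

/-- A map killing all components except the one of degree `n` is given by that component. -/
theorem eg_eq {K M : Type} [Field K] [AddCommGroup M] [Module K M] {k : ℕ} (g : EE K M k)
    (n : ℕ) (hg : ∀ h, ∀ v : ℕ, v ≠ n → g (homogeneousComponent v h) = 0)
    (h : MvPolynomial (Fin k) K) : g h = g (homogeneousComponent n h) := by
  conv_lhs => rw [← sum_homogeneousComponent h]
  rw [map_sum]
  by_cases hn : n ∈ Finset.range (h.totalDegree + 1)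
  · exact Finset.sum_eq_single_of_mem n hn fun v _ hv => hg h v hv
  · rw [Finset.sum_eq_zero fun v hv => hg h v fun h' => hn (h' ▸ hv),
      homogeneousComponent_eq_zero _ _ (by
        rw [Finset.mem_range] at hn
        omega), map_zero]

theorem fin_eg {K M : Type} [Field K] [AddCommGroup M] [Module K M] (G : Submodule K M) (k : ℕ)
    (u : ℤ) (hG : Module.Finite K G) : Module.Finite K ↥(Eg (k := k) G u) := by
  have hH : Module.Finite K ↥(homogeneousSubmodule (Fin k) K u.toNat) :=
    Module.Finite.iff_fg.2 (homogeneousSubmodule_fg (Fin k) K u.toNat)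
  let F : ↥(Eg (k := k) G u) →ₗ[K] (↥(homogeneousSubmodule (Fin k) K u.toNat) →ₗ[K] G) :=
    { toFun := fun g => (g.1.domRestrict _).codRestrict G fun h => (g.2 h.1).1
      map_add' := fun _ _ => rfl
      map_smul' := fun _ _ => rfl }
  refine Module.Finite.of_injective F ?_
  rw [injective_iff_map_eq_zero]
  intro g hg
  apply Subtype.ext
  apply LinearMap.ext
  intro h
  by_cases hu : 0 ≤ u
  · rw [eg_eq g.1 u.toNat (fun h v hv => (g.2 h).2 v (by omega)) h]
    have h1 := LinearMap.congr_fun hg ⟨homogeneousComponent u.toNat h,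
      homogeneousComponent_mem u.toNat h⟩
    exact congrArg Subtype.val h1
  · rw [eg_eq g.1 0 (fun h v hv => (g.2 h).2 v (by omega)) h]
    exact (g.2 h).2 0 (by omega)

end FIE

theorem t_fie : FIEStmt := by
  intro K M _ _ _ G k u hG J p
  have hE := FIE.fin_eg G k u hG
  let F : ↥(Cc J p (Eg (k := k) G u)) →ₗ[K] (↥J.powerset → ↥(Eg (k := k) G u)) :=
    { toFun := fun c T => ⟨c.1 T.1, (c.2 T.1).1⟩
      map_add' := fun _ _ => rfl
      map_smul' := fun _ _ => rfl }
  refine Module.Finite.of_injective F ?_
  rw [injective_iff_map_eq_zero]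
  intro c hc
  apply Subtype.ext
  funext T
  by_cases hT : T ⊆ J
  · have h1 := congrFun hc ⟨T, Finset.mem_powerset.2 hT⟩
    exact congrArg Subtype.val h1
  · exact (c.2 T).2 fun h => hT h.1

end Pool.KZ
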