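import Pool.Agent.H8.KZ.FIE

set_option autoImplicit false

namespace Pool.KZ

open MvPolynomial

namespace ONE

theorem hc_one {K : Type} [Field K] (n : ℕ) (h : MvPolynomial (Fin 1) K) :
    homogeneousComponent n h = coeff (Finsupp.single 0 n) h • (X 0 ^ n : MvPolynomial (Fin 1) K) := by
  ext d
  have hd : d = Finsupp.single 0 (d 0) := by
    refine Finsupp.ext fun i => ?_
    rw [Subsingleton.elim i 0, Finsupp.single_eq_same]
  have hdeg : d.degree = d 0 := by
    rw [hd, Finsupp.degree_single, Finsupp.single_eq_same]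
  rw [coeff_homogeneousComponent, hdeg, coeff_smul, X_pow_eq_monomial, coeff_monomial]
  by_cases h1 : d 0 = n
  · subst h1
    rw [if_pos rfl, if_pos hd.symm, smul_eq_mul, mul_one, ← hd]
  · rw [if_neg h1, if_neg, smul_zero]
    intro h2
    apply h1
    rw [← h2, Finsupp.single_eq_same]

theorem coeff_X_mul_one {K : Type} [Field K] (n : ℕ) (h : MvPolynomial (Fin 1) K) :
    coeff (Finsupp.single 0 (n + 1)) (X 0 * h) = coeff (Finsupp.single 0 n) h := by
  rw [add_comm, Finsupp.single_add, coeff_X_mul]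

end ONE

theorem t_one : ONEStmt := by
  intro K M _ _ _ G y J p s ν hν hV c hc hcz
  obtain ⟨n, hn⟩ : ∃ n : ℕ, ν - s = ((n + 1 : ℕ) : ℤ) := ⟨(ν - s - 1).toNat, by omega⟩
  have hcv : ∀ (T : Finset ℕ) (h : MvPolynomial (Fin 1) K),
      c T h = coeff (Finsupp.single 0 (n + 1)) h • c T (X 0 ^ (n + 1)) := by
    intro T h
    rw [FIE.eg_eq (c T) (n + 1) (fun h v hv => ((hc T).1 h).2 v (by omega)) h, ONE.hc_one,
      map_smul]
  obtain ⟨b', hb', hbe⟩ := hV (fun T => c T (X 0 ^ (n + 1)))
    (fun T => ⟨((hc T).1 (X 0 ^ (n + 1))).1, fun h => by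
      show c T (X 0 ^ (n + 1)) = 0
      rw [(hc T).2 h]
      rfl⟩)
    (fun T hT => by
      have h1 := LinearMap.congr_fun (hcz T hT) (X 0 ^ n)
      have h2 : (kd (xe y) c T) (X 0 ^ n)
          = kd (fun j => y j 0) (fun T => c T (X 0 ^ (n + 1))) T := by
        show (∑ j ∈ T, sg j T • xe y j (c (T.erase j))) (X 0 ^ n) = _
        rw [LinearMap.sum_apply]
        refine Finset.sum_congr rfl fun j _ => ?_
        rw [LinearMap.smul_apply]
        congr 1
        show (∑ i, (y j i).comp (ct (X i) (c (T.erase j)))) (X 0 ^ n) = _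
        rw [Fin.sum_univ_one, pow_succ']
        rfl
      rw [← h2, h1]
      rfl)
  let b : Finset ℕ → EE K M 1 := fun T =>
    { toFun := fun h => coeff (Finsupp.single 0 (n + 2)) h • b' T
      map_add' := fun h h' => by rw [coeff_add, add_smul]
      map_smul' := fun r h => by
        rw [coeff_smul, smul_eq_mul, mul_smul]
        rfl }
  refine ⟨b, fun T => ⟨fun h => ⟨Submodule.smul_mem _ _ (hb' T).1, fun v hv => ?_⟩,
    fun h => ?_⟩, fun T hT => ?_⟩
  · show coeff (Finsupp.single 0 (n + 2)) (homogeneousComponent v h) • b' T = 0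
    rw [coeff_homogeneousComponent, if_neg, zero_smul]
    rw [Finsupp.degree_single]
    omega
  · apply LinearMap.ext
    intro h'
    show coeff (Finsupp.single 0 (n + 2)) h' • b' T = 0
    rw [(hb' T).2 h, smul_zero]
  · apply LinearMap.ext
    intro h
    rw [hcv T h, ← hbe T hT]
    show (∑ j ∈ T, sg j T • xe y j (b (T.erase j))) h = _ • ∑ j ∈ T, sg j T • y j 0 (b' (T.erase j))
    rw [LinearMap.sum_apply, Finset.smul_sum]
    refine Finset.sum_congr rfl fun j _ => ?_
    rw [LinearMap.smul_apply, smul_comm]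
    congr 1
    show (∑ i, (y j i).comp (ct (X i) (b (T.erase j)))) h = _
    rw [Fin.sum_univ_one]
    show y j 0 (coeff (Finsupp.single 0 (n + 2)) (X 0 * h) • b' (T.erase j)) = _
    rw [ONE.coeff_X_mul_one, map_smul]

end Pool.KZ
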